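import Pool.Agent.Helper11.SY.Df

/-!
# Liouville fields and the torus of the graded ring: definitions

`R` is the completed local ring of a point, `w` a real valuation centred there.
-/

set_option autoImplicit false

namespace Pool.Agent.Helper37.LTX

open IsLocalRing Pool.Agent.Helper11.SY

variable {R : Type} [CommRing R] [Algebra ℂ R] [IsLocalRing R]

/-- `E` is a Liouville field: `L_E ω = ω` for the symplectic form `ω`, that is `L_E π = - π` for the
Poisson bracket. -/
def Liouville {n : ℕ} (S : Symp R n) (E : Derivation ℂ R R) : Prop :=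
  ∀ f g, E (S.br f g) = S.br (E f) g + S.br f (E g) - S.br f g

/-- The derivation of `gr_w R` induced by `E` (which does not lower `w`) has on the part of degree `r`
only the eigenvalue `c r`: if `E f - μ f` has larger valuation than `f`, then `μ = c r`, `r` the
valuation of `f`. -/
def SingleEig (w : CVal R) (E : Derivation ℂ R R) (c : ℂ) : Prop :=
  ∀ (f : R) (r : ℝ) (μ : ℂ), w.v f = (r : WithTop ℝ) → w.v f < w.v (E f - μ • f) → μ = c * r

/-- `T` represents a derivation of degree `0` of the graded ring `gr_w R`: on the part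
`{w ≥ r} / {w > r}` of degree `r` it is induced by the linear map `T r`. -/
structure GrDer (w : CVal R) (T : ℝ → R →ₗ[ℂ] R) : Prop where
  ge : ∀ (r : ℝ) x, (r : WithTop ℝ) ≤ w.v x → (r : WithTop ℝ) ≤ w.v (T r x)
  gt : ∀ (r : ℝ) x, (r : WithTop ℝ) < w.v x → (r : WithTop ℝ) < w.v (T r x)
  leib : ∀ (r s : ℝ) x y, (r : WithTop ℝ) ≤ w.v x → (s : WithTop ℝ) ≤ w.v y →
    ((r + s : ℝ) : WithTop ℝ) < w.v (T (r + s) (x * y) - (T r x * y + x * T s y))

/-- Every diagonalizable derivation of degree `0` of `gr_w R` which commutes with `L` is a multiple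
`c ξ` of the Reeb field `ξ`, which is multiplication by `r` in degree `r`.  So the maximal tori of
the group of the automorphisms of `gr_w R` which preserve the grading and commute with `L` have rank
one. -/
def RankOne (w : CVal R) (L : Set (R ≃ₐ[ℂ] R)) : Prop := ∀ T : ℝ → R →ₗ[ℂ] R, GrDer w T →
  (∀ (r : ℝ) x, (r : WithTop ℝ) ≤ w.v x → x ∈ Submodule.span ℂ
    {y | (r : WithTop ℝ) ≤ w.v y ∧ ∃ μ : ℂ, (r : WithTop ℝ) < w.v (T r y - μ • y)}) →
  (∀ σ ∈ L, ∀ (r : ℝ) x, (r : WithTop ℝ) ≤ w.v x →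
    (r : WithTop ℝ) < w.v (T r (σ x) - σ (T r x))) →
  ∃ c : ℂ, ∀ (r : ℝ) x, (r : WithTop ℝ) ≤ w.v x → (r : WithTop ℝ) < w.v (T r x - (c * r) • x)

/-- The germ is conical with respect to the valuation: `R` contains a graded ring `⨁ G r`, where
`G r` is a complement of `{w > r}` in `{w ≥ r}`, and the Poisson bracket has degree `- a`.  So
`⨁ G r` is isomorphic to `gr_w R`, and `R` is its completion. -/
structure Conical {n : ℕ} (S : Symp R n) (w : CVal R) (a : ℝ) (G : ℝ → Submodule ℂ R) : Prop where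
  one : (1 : R) ∈ G 0
  mul : ∀ (r s : ℝ) (x y : R), x ∈ G r → y ∈ G s → x * y ∈ G (r + s)
  br : ∀ (r s : ℝ) (x y : R), x ∈ G r → y ∈ G s → S.br x y ∈ G (r + s - a)
  val : ∀ (r : ℝ) (x : R), x ∈ G r → x ≠ 0 → w.v x = (r : WithTop ℝ)
  lead : ∀ (f : R) (r : ℝ), w.v f = (r : WithTop ℝ) → ∃ g ∈ G r, w.v f < w.v (f - g)

end Pool.Agent.Helper37.LTX
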