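import Pool.Agent.Helper37.LTX.Defs
import Pool.Agent.Helper20.LT.Main

/-!
# Liouville fields and the torus: the theorem for the short definitions
-/

set_option autoImplicit false

namespace Pool.Agent.Helper37.LTX

open IsLocalRing Pool.Agent.Helper11.SY

open Pool.Agent.Helper20.LT (ge gt Gr Maps Comm Diag)

variable {R : Type} [CommRing R] [Algebra ℂ R] [IsLocalRing R]

theorem exists_lift (w : CVal R) (r : ℝ) (δ : Module.End ℂ (Gr w r)) :
    ∃ T : R →ₗ[ℂ] R, (∀ x, (r : WithTop ℝ) ≤ w.v (T x)) ∧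
      (∀ x : ge w r, ∃ y : ge w r, (y : R) = T x ∧ Maps w r δ x y) ∧
      ∀ x, (r : WithTop ℝ) < w.v x → T x = 0 := by
  obtain ⟨p, hp⟩ := (ge w r).subtype.exists_leftInverse_of_injective (Submodule.ker_subtype _)
  obtain ⟨s, hs⟩ := (gt w r).mkQ.exists_rightInverse_of_surjective (Submodule.range_mkQ _)
  have hp' : ∀ x : ge w r, p (x : R) = x := fun x => LinearMap.congr_fun hp x
  have hs' : ∀ q : Gr w r, Submodule.Quotient.mk (s q) = q := fun q => LinearMap.congr_fun hs q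
  refine ⟨(ge w r).subtype ∘ₗ s ∘ₗ δ ∘ₗ (gt w r).mkQ ∘ₗ p, fun x => ?_, fun x => ?_,
    fun x hx => ?_⟩
  · exact (s (δ ((gt w r).mkQ (p x)))).2
  · refine ⟨s (δ ((gt w r).mkQ (p x))), rfl, ?_⟩
    unfold Maps
    rw [hs', hp']
    rfl
  · have h1 : (gt w r).mkQ (p x) = 0 := by
      have h2 := hp' ⟨x, le_of_lt hx⟩
      rw [show p x = ⟨x, le_of_lt hx⟩ from h2, Submodule.mkQ_apply, Submodule.Quotient.mk_eq_zero]
      exact hx
    show ((s (δ ((gt w r).mkQ (p x))) : ge w r) : R) = 0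
    rw [h1, map_zero, map_zero]
    rfl

theorem maps_iff {w : CVal R} {r : ℝ} {δ : Module.End ℂ (Gr w r)} {x y z : ge w r}
    (h : Maps w r δ x y) : Maps w r δ x z ↔ (r : WithTop ℝ) < w.v ((y : R) - z) := by
  unfold Maps at h ⊢
  rw [h, Submodule.Quotient.eq]
  rfl

theorem rankOne_of {w : CVal R} {L : Set (R ≃ₐ[ℂ] R)}
    (hL : ∀ σ ∈ L, ∀ f, w.v (σ f) = w.v f) (h : RankOne w L) :
    Pool.Agent.Helper20.LT.RankOne w L := by
  intro δ hdiag hcomm
  choose T hT1 hT2 hT3 using fun r => exists_lift w r (δ.T r)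
  have hmaps : ∀ (r : ℝ) (x : ge w r), ∃ y : ge w r, (y : R) = T r x ∧ Maps w r (δ.T r) x y :=
    fun r x => hT2 r x
  have hG : GrDer w T := by
    refine ⟨fun r x _ => hT1 r x, fun r x hx => ?_, fun r s x y hx hy => ?_⟩
    · rw [hT3 r x hx, w.v.map_zero]
      exact WithTop.coe_lt_top r
    · obtain ⟨x', hx1, hx2⟩ := hmaps r ⟨x, hx⟩
      obtain ⟨y', hy1, hy2⟩ := hmaps s ⟨y, hy⟩
      have hz : ((r + s : ℝ) : WithTop ℝ) ≤ w.v (x * y) := by
        rw [w.v.map_mul, WithTop.coe_add]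
        exact add_le_add hx hy
      have hz' : ((r + s : ℝ) : WithTop ℝ) ≤ w.v ((x' : R) * y + x * y') := by
        refine w.v.map_le_add ?_ ?_
        · rw [w.v.map_mul, WithTop.coe_add]
          exact add_le_add x'.2 hy
        · rw [w.v.map_mul, WithTop.coe_add]
          exact add_le_add hx y'.2
      obtain ⟨t, ht1, ht2⟩ := hmaps (r + s) ⟨x * y, hz⟩
      have h1 := δ.leib r s ⟨x, hx⟩ x' ⟨y, hy⟩ y' ⟨x * y, hz⟩ ⟨_, hz'⟩ hx2 hy2 rfl rfl
      have h2 := (maps_iff ht2).1 h1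
      have h3 : (t : R) = T (r + s) (x * y) := ht1
      have h4 : (x' : R) = T r x := hx1
      have h5 : (y' : R) = T s y := hy1
      rw [← h3, ← h4, ← h5]
      exact h2
  have hdg : ∀ (r : ℝ) x, (r : WithTop ℝ) ≤ w.v x → x ∈ Submodule.span ℂ
      {y | (r : WithTop ℝ) ≤ w.v y ∧ ∃ μ : ℂ, (r : WithTop ℝ) < w.v (T r y - μ • y)} := by
    intro r x hx
    set S : Set R := {y | (r : WithTop ℝ) ≤ w.v y ∧ ∃ μ : ℂ, (r : WithTop ℝ) < w.v (T r y - μ • y)}
      with hS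
    have hgt : ∀ z : R, (r : WithTop ℝ) < w.v z → z ∈ S := by
      intro z hz
      refine ⟨le_of_lt hz, 0, ?_⟩
      rw [hT3 r z hz, zero_smul, sub_zero, w.v.map_zero]
      exact WithTop.coe_lt_top r
    have h1 : ∀ q : Gr w r, ∃ y : ge w r, Submodule.Quotient.mk y = q ∧
        (y : R) ∈ Submodule.span ℂ S := by
      have h2 : (⨆ μ : ℂ, Module.End.eigenspace (δ.T r) μ) ≤
          ((Submodule.span ℂ S).comap (ge w r).subtype).map (gt w r).mkQ := by
        refine iSup_le fun μ q hq => ?_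
        obtain ⟨y, rfl⟩ := Submodule.Quotient.mk_surjective _ q
        refine ⟨y, Submodule.subset_span ⟨y.2, μ, ?_⟩, rfl⟩
        obtain ⟨y', hy1, hy2⟩ := hmaps r y
        have h3 : Maps w r (δ.T r) y (μ • y) := by
          unfold Maps
          rw [Module.End.mem_eigenspace_iff.1 hq]
          rfl
        have h4 := (maps_iff hy2).1 h3
        rw [hy1] at h4
        exact h4
      rw [hdiag r] at h2
      intro q
      obtain ⟨y, hy, rfl⟩ := h2 (Submodule.mem_top (x := q))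
      exact ⟨y, rfl, hy⟩
    obtain ⟨y, hy1, hy2⟩ := h1 (Submodule.Quotient.mk ⟨x, hx⟩)
    rw [Submodule.Quotient.eq] at hy1
    have h5 : (r : WithTop ℝ) < w.v (x - y) := by
      have h6 : (r : WithTop ℝ) < w.v ((y : R) - x) := hy1
      rw [← neg_sub, AddValuation.map_neg]
      exact h6
    have h7 : x = (y : R) + (x - y) := by ring
    rw [h7]
    exact Submodule.add_mem _ hy2 (Submodule.subset_span (hgt _ h5))
  have hcm : ∀ σ ∈ L, ∀ (r : ℝ) x, (r : WithTop ℝ) ≤ w.v x →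
      (r : WithTop ℝ) < w.v (T r (σ x) - σ (T r x)) := by
    intro σ hσ r x hx
    have h1 : (r : WithTop ℝ) ≤ w.v (σ x) := by rwa [hL σ hσ]
    obtain ⟨x', hx1, hx2⟩ := hmaps r ⟨x, hx⟩
    obtain ⟨y', hy1, hy2⟩ := hmaps r ⟨σ x, h1⟩
    have h2 : (r : WithTop ℝ) ≤ w.v (σ (x' : R)) := by
      rw [hL σ hσ]
      exact x'.2
    have h3 := hcomm σ hσ r ⟨x, hx⟩ x' ⟨σ x, h1⟩ ⟨σ x', h2⟩ rfl rfl hx2
    have h4 := (maps_iff hy2).1 h3
    have h5 : (x' : R) = T r x := hx1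
    have h6 : (y' : R) = T r (σ x) := hy1
    rw [← h5, ← h6]
    exact h4
  obtain ⟨c, hc⟩ := h T hG hdg hcm
  refine ⟨c, fun r x => ?_⟩
  obtain ⟨y, hy1, hy2⟩ := hmaps r x
  rw [maps_iff hy2]
  have h1 := hc r x x.2
  rw [hy1]
  exact h1

theorem conical_of {n : ℕ} {S : Symp R n} {w : CVal R} {a : ℝ}
    (h : ∃ G : ℝ → Submodule ℂ R, Pool.Agent.Helper20.LT.Conical S w a G) :
    ∃ G : ℝ → Submodule ℂ R, Conical S w a G := by
  obtain ⟨G, h⟩ := h
  exact ⟨G, h.one, h.mul, h.br, h.val, h.lead⟩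

theorem main [IsDomain R] [IsNoetherianRing R] [IsAdicComplete (maximalIdeal R) R]
    (hres : ∀ f : R, ∃ c : ℂ, f - algebraMap ℂ R c ∈ maximalIdeal R)
    {n : ℕ} (hn : 1 ≤ n) (hdim : ringKrullDim R = ((2 * n : ℕ) : WithBot ℕ∞))
    (S : Symp R n) (w : CVal R) (A : ℝ) (hw : IsMinimizer S w A)
    (E : Derivation ℂ R R) (hEm : ∀ f ∈ maximalIdeal R, E f ∈ maximalIdeal R)
    (hL : Liouville S E) :
    (∀ c : ℂ, SingleEig w E c →
      c = n / A ∧ OrderGe S w (A / n) ∧ ∃ G : ℝ → Submodule ℂ R, Conical S w (A / n) G) ∧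
    (∀ L : Set (R ≃ₐ[ℂ] R), (∀ σ ∈ L, ∀ f, E (σ f) = σ (E f)) → RankOne w L →
      SingleEig w E (n / A) ∧ OrderGe S w (A / n) ∧
        ∃ G : ℝ → Submodule ℂ R, Conical S w (A / n) G) := by
  have hm := Pool.Agent.Helper20.LT.exists_nonzero (R := R) hn hdim
  have hE : ∀ f, w.v f ≤ w.v (E f) := fun f =>
    der_val hres w (fun σ f => inv_aut hw hm σ f) E hEm f
  have h1 : ∀ c : ℂ, SingleEig w E c →
      c = n / A ∧ OrderGe S w (A / n) ∧ ∃ G : ℝ → Submodule ℂ R, Conical S w (A / n) G := by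
    intro c hc
    obtain ⟨e1, e2, e3⟩ := Pool.Agent.Helper20.LT.criterion hres hn hw.disc hm hE hEm hL hc
    exact ⟨e1, e2, conical_of e3⟩
  refine ⟨h1, fun L hL' hrk => ?_⟩
  obtain ⟨c, hc⟩ := Pool.Agent.Helper20.LT.single_of_rankOne hres w L
    (rankOne_of (fun σ _ f => inv_aut hw hm σ f) hrk) E hE (fun σ _ f => inv_aut hw hm σ f) hL'
  have h2 := h1 c hc
  rw [← h2.1]
  exact ⟨hc, h2.2⟩

end Pool.Agent.Helper37.LTX
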